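import Pool.Agent.H76.ND.Targets
import Pool.Agent.H95.INS.Targets3
import Pool.Agent.H97.NF.Pair

/-!
# Part D of MP_57ddd5_pr, probabilistic half: definitions
-/

open MeasureTheory ProbabilityTheory
open scoped ENNReal

namespace Pool.Agent.H95.ND

open Pool.Agent.H99.NS Pool.Agent.H22.LPP Pool.Agent.H95.INS Pool.Agent.H76.ND
open Pool.Agent.H97.NF (PEnv eA eB PN)

/-- Size of the allowance at distance `d` of the scales. -/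
noncomputable def str (K0 : ℝ) (d : ℕ) : ℝ := K0 * (101 / 100) ^ d

/-- Stretched exponential tail. -/
noncomputable def tl (C c s x : ℝ) : ℝ≥0∞ := ENNReal.ofReal (C * Real.exp (-(c * x ^ s)))

/-- The lateral cut-off is small compared with the core scale. -/
def Sml (Xc : ℤ) (a : ℕ) : Prop := (16 * Xc + 2) ^ 24 ≤ 64 ^ a

/-! ## Tails of the norms -/

/-- Crossing lower bound for the field `T (phi w)` over slabs of height `L`, positions up to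
`Bd`. -/
def CLow (q C c s : ℝ) (φ : Env → Env) (L : ℕ) (Bd : ℝ) : Prop :=
  ∀ (b : Site) (E : ℤ) (Y : ℝ), |(b.2 : ℝ)| ≤ Bd → |((b.2 + E : ℤ) : ℝ)| ≤ Bd →
    |(E : ℝ)| ≤ XL L → 0 ≤ Y →
    PE q {ω | ∃ x y : ℤ, Reach (b.1, x) (b.1 + L, y) ∧
      |((x - b.2 : ℤ) : ℝ)| ≤ (L : ℝ) ^ ((2 : ℝ) / 3) ∧
      |((y - (b.2 + E) : ℤ) : ℝ)| ≤ (L : ℝ) ^ ((2 : ℝ) / 3) ∧
      T (φ ω) (b.1, x) (b.1 + L, y) ≤
        par q (b.1, x) (b.1 + L, y) - Y * (L : ℝ) ^ ((1 : ℝ) / 3)} ≤ tl C c s Y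

/-- Interior lower bound (vertical direction) for the field `T (phi w)`. -/
def ILow (q C c s : ℝ) (φ : Env → Env) (L : ℕ) (Bd : ℝ) : Prop :=
  ∀ (b : Site) (Y : ℝ), |(b.2 : ℝ)| ≤ Bd → 0 ≤ Y →
    PE q {ω | ∃ u v : Site, b.1 ≤ u.1 ∧ u.1 < v.1 ∧ v.1 ≤ b.1 + L ∧ Reach u v ∧
      |dx u v| ≤ 2 ∧
      (|dx b u| ≤ (L : ℝ) ^ ((2 : ℝ) / 3) ∨ |dx b v| ≤ (L : ℝ) ^ ((2 : ℝ) / 3)) ∧
      T (φ ω) u v ≤ mu q * dt u v - Y * (L : ℝ) ^ ((1 : ℝ) / 3)} ≤ tl C c s Y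

/-- INPUT: crossing lower bounds in the tube `|x| < R`. -/
def I_TL (q : ℝ) : Prop := ∃ C c s : ℝ, 0 < C ∧ 0 < c ∧ 0 < s ∧ ∀ (L : ℕ) (R : ℤ), 1 ≤ L →
  240 * (L : ℝ) ^ ((2 : ℝ) / 3) ≤ R → CLow q C c s (cutE R) L (R / 80)

/-- INPUT: interior lower bounds in the tube `|x| < R`. -/
def I_TI (q : ℝ) : Prop := ∃ C c s : ℝ, 0 < C ∧ 0 < c ∧ 0 < s ∧ ∀ (L : ℕ) (R : ℤ), 1 ≤ L →
  240 * (L : ℝ) ^ ((2 : ℝ) / 3) ≤ R → ILow q C c s (cutE R) L (R / 80)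

/-- Tail of the norm events. -/
def I_N (q : ℝ) : Prop := ∃ C c s : ℝ, 0 < C ∧ 0 < c ∧ 0 < s ∧
  ∀ (K0 : ℝ) (Xc : ℤ) (a j i : ℕ), 1 ≤ K0 → 16 ≤ Xc → Sml Xc a → 1 ≤ a → a ≤ i → a ≤ j →
    PE q {ω | ¬ Nm q K0 Xc a j i ω} ≤ tl C c s (str K0 (ds j i))

/-- Tail of the violation events. -/
def I_V (q : ℝ) : Prop := ∃ C c s : ℝ, 0 < C ∧ 0 < c ∧ 0 < s ∧
  ∀ (K0 : ℝ) (Xc A : ℤ) (a j i k : ℕ), 1 ≤ K0 → 200 ≤ A → A ≤ Xc → Sml Xc a → 1 ≤ a →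
    a ≤ j → j < k → a ≤ i → i < k →
    PE q {ω | VV q K0 Xc (A * 16 ^ k) (16 ^ k) a j i ω} ≤ tl C c s (str K0 (ds j i))

/-! ## Constants -/

/-- Constants for the multi-scale analysis: `δ` is the failure probability of one scale. -/
structure PK (q δ C₀ : ℝ) (c : Cst) (k₀ : ℕ) (p₀ : ℝ≥0∞) : Prop where
  hq : c.q = q
  K01 : 1 ≤ c.K0
  KK : C₀ * c.K0 ^ 2 ≤ c.K
  KB : C₀ * c.K0 ≤ c.B
  H1 : 1 ≤ c.H
  A1 : 200 ≤ c.A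
  A2 : 256 * c.K0 ≤ sg q * c.A
  p0 : 0 < p₀
  p1 : p₀ ≤ 1
  ok : ∀ (Xc : ℤ) (k : ℕ), k₀ ≤ k → 16 * c.A ≤ Xc → Xc + c.A ≤ 32 * 4 ^ k → (dk c Xc k).Ok
  fc : ∀ (Xc : ℤ) (k : ℕ), k₀ ≤ k → 16 * c.A ≤ Xc → Xc + c.A ≤ 32 * 4 ^ k →
    PE q {out | ¬ FC (dk c Xc k) out} ≤ ENNReal.ofReal (δ ^ 2 / 4)
  ph : ∀ (Xc : ℤ) (k : ℕ), k₀ ≤ k → 16 * c.A ≤ Xc → Xc + c.A ≤ 32 * 4 ^ k →
    p₀ ≤ pH (dk c Xc k)
  ins : ∀ (Xc : ℤ) (k : ℕ), k₀ ≤ k → 16 * c.A ≤ Xc → Xc + c.A ≤ 32 * 4 ^ k →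
    ∀ (out : Env) (o e : Site), Ends (dk c Xc k) o e → Good (dk c Xc k) out o e →
      p₀ ≤ Pin (dk c Xc k) out (fun ω => |Lam ω o e 0| < c.A * 16 ^ k)

/-! ## Chains over scales, several environments -/

/-- JC: for `m` environments of arbitrary joint law, the probability that at each scale
between `b` and `k` one of them is bad. First part: in the box of scale `k`, on the event
that the scale `k` is good for all of them. Second part: without box. -/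
def JCs (c : Cst) (m : ℕ) (M : ℝ) (k₀ : ℕ) : Prop :=
  ∀ (Ω : Type) [MeasurableSpace Ω] (μ : Measure Ω) [IsProbabilityMeasure μ]
    (X : Fin m → Ω → Env), (∀ l, MeasurePreserving (X l) μ (PE c.q)) →
  ∀ (Xc : ℤ) (a I b k : ℕ), 16 * c.A ≤ Xc → Sml Xc a → k₀ ≤ a → 1 ≤ a → a ≤ b → b ≤ k →
    (k ≤ I → ∀ out : Fin m → Env,
      μ {ω | (∀ l, good c Xc a I k (splice (Bx (dk c Xc k)) (X l ω) (out l))) ∧
        ∀ j, b ≤ j → j < k →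
          ∃ l, ¬ good c Xc a I j (splice (Bx (dk c Xc k)) (X l ω) (out l))} ≤
      ENNReal.ofReal (m * Real.exp (-(M * (k - b))))) ∧
    μ {ω | ∀ j, b ≤ j → j < k → ∃ l, ¬ good c Xc a I j (X l ω)} ≤
      ENNReal.ofReal (m * Real.exp (-(M * (k - b))))

/-! ## Windows -/

/-- Left end point. -/
def oK (K : ℕ) : Site := (-lv K, 0)

/-- Right end point. -/
def eK (K : ℕ) : Site := (lv K, 0)

/-- Lateral cut-off. -/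
def Xf (K : ℕ) : ℤ := 4 ^ (K / 400)

/-- Center of the window `w` of scale `a` at the level `j` (parity adjusted). -/
def zc (j : ℤ) (a : ℕ) (w : ℤ) : Site := (j, w * 16 ^ a + j % 2)

/-- The window `w` of scale `a`. -/
def win (a : ℕ) (w : ℤ) : Set ℤ := {x | w * 16 ^ a ≤ x ∧ x < (w + 1) * 16 ^ a}

/-- Goodness at the center `z`. -/
def goodAt (c : Cst) (Xc : ℤ) (a I k : ℕ) (z : Site) (ω : Env) : Prop :=
  good c Xc a I k (shiftE z ω)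

open Classical in
/-- Pair of environments: `E` in `Q`, the same environment `out` outside `Q`. -/
noncomputable def gl2 (Q : Set Site) (E : PEnv) (out : Env) : PEnv :=
  fun x => if x ∈ Q then E x else (out x, out x)

/-- Regularity of a path between the times `lo` and `hi` at the scales `≥ a`. -/
def RGG (Xc : ℤ) (a : ℕ) (lo hi : ℤ) (g : ℤ → ℤ) : Prop :=
  ∀ i, a ≤ i → ∀ s t, lo ≤ s → s ≤ t → t ≤ hi → t - s ≤ 64 ^ (i + 1) →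
    2 * |g t - g s| ≤ Xc * 16 ^ i

/-- INPUT (crude regularity): all near geodesics are regular. -/
def I_RG (q : ℝ) : Prop := ∀ h : ℝ, 0 < h → ∃ C c' : ℝ, 0 < C ∧ 0 < c' ∧ ∃ K₁ : ℕ,
  ∀ K : ℕ, K₁ ≤ K →
    PE q {ω | ∃ a : ℕ, K ≤ 40 * a ∧ a ≤ K ∧ ∃ g, Near ω (oK K) (eK K) (h * 4 ^ a) g ∧
      ¬ RGG (Xf K) a (-lv K) (lv K) g} ≤ ENNReal.ofReal (C * Real.exp (-Real.exp (c' * K)))

/-- INPUT (transversal fluctuations of the geodesic). -/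
def I_TOP (q : ℝ) : Prop := ∃ C c s : ℝ, 0 < C ∧ 0 < c ∧ 0 < s ∧ ∃ K₁ : ℕ,
  ∀ K : ℕ, K₁ ≤ K → ∀ D : ℝ, 0 ≤ D →
    PE q {ω | ∃ t, -lv K ≤ t ∧ t ≤ lv K ∧ D * 16 ^ K < |(Lam ω (oK K) (eK K) t : ℝ)|} ≤
      tl C c s D

/-- The conclusion of `T_GD` with the constant `C`. -/
def GDs (q C : ℝ) : Prop :=
  ∀ (c : Cst) (Xc : ℤ) (a I k : ℕ) (ω : Env) (o e : Site) (t1 : ℤ) (g : ℤ → ℤ), c.q = q →
    1 ≤ c.K0 → C * c.K0 ^ 2 ≤ c.K → C * c.K0 ≤ c.B → 0 ≤ c.H → 16 ≤ Xc →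
    4 * Xc ≤ 4 ^ a → 1 ≤ a → a ≤ k → k ≤ I → o.1 ≤ -lv (I + 1) → lv (I + 1) ≤ e.1 → good c Xc a I k ω →
    RF (dk c Xc k) ω o e → Near ω o e 0 g → -lv a ≤ t1 → t1 ≤ lv a →
    |(g t1 : ℝ)| ≤ 8 * 16 ^ k → RG Xc a I t1 g → (3 / 8) ^ (I - k) * Dt I t1 g ≤ 1 →
    Good (dk c Xc k) ω o e ∧ |(g (-lv (k + 1)) : ℝ)| ≤ c.B * 16 ^ k ∧
      |(g (lv (k + 1)) : ℝ)| ≤ c.B * 16 ^ k

/-- The environments outside the box for which the leftmost geodesic passes through the middle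
of the box with probability at least `p`. -/
def Gp (c : Cst) (k : ℕ) (o e z : Site) (p : ℝ≥0∞) : Set Env :=
  {out | p ≤ Pin (dk c 0 k) (shiftE z out) (fun ω => |Lam ω (o - z) (e - z) 0| < c.A * 16 ^ k)}

/-- PALM: summation over the windows of a level. -/
def PALMs (c : Cst) (M : ℝ) : Prop := ∃ C c' : ℝ, 0 < C ∧ 0 < c' ∧ ∃ K₁ : ℕ,
  ∀ K a a1 m : ℕ, K₁ ≤ K → K ≤ 40 * a → a ≤ a1 → a1 + 2 * m + 2 ≤ K →
  ∀ j : ℤ, |j| ≤ 24 * 64 ^ (K - 1) →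
  ∀ (ρ : ℤ → Site → ℝ) (Bad : ℤ → Set PEnv) (β : ℝ), 0 ≤ β → (∀ w, MeasurableSet (Bad w)) →
    (∀ w x, x ∉ BxAt (dk c (Xf K) a1) (zc j a1 w) → ρ w x = 0) →
    (∀ (w : ℤ) (k : ℕ), a1 ≤ k → k ≤ a1 + m → ∀ out : Env,
      PN c.q (ρ w) {E | gl2 (BxAt (dk c (Xf K) k) (zc j a1 w)) E out ∈ Bad w ∧
        goodAt c (Xf K) a (K - 2) k (zc j a1 w)
          (eA (gl2 (BxAt (dk c (Xf K) k) (zc j a1 w)) E out)) ∧
        goodAt c (Xf K) a (K - 2) k (zc j a1 w)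
          (eB (gl2 (BxAt (dk c (Xf K) k) (zc j a1 w)) E out))} ≤ ENNReal.ofReal β) →
  ∀ W : Finset ℤ,
    ∑ w ∈ W, PN c.q (ρ w) {E | Lam (eA E) (oK K) (eK K) j ∈ win a1 w ∧ E ∈ Bad w} ≤
      ENNReal.ofReal (C * (16 ^ m * β + Real.exp (-(M * m)) + Real.exp (-Real.exp (c' * K))))

/-- NOG: no window close to the axis without good scale. -/
def NOGs (c : Cst) (M : ℝ) : Prop := ∃ C : ℝ, 0 < C ∧ ∃ K₁ : ℕ,
  ∀ K a a1 m : ℕ, K₁ ≤ K → K ≤ 40 * a → a ≤ a1 → a1 + m + 2 ≤ K → ∀ (j : ℤ) (D : ℝ), 1 ≤ D →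
  ∀ ρ : Site → ℝ,
    PN c.q ρ {E | ∃ w : ℤ, |(w : ℝ)| * 16 ^ a1 ≤ D * 16 ^ K ∧ ∀ k, a1 ≤ k → k ≤ a1 + m →
      ¬ (goodAt c (Xf K) a (K - 2) k (zc j a1 w) (eA E) ∧
        goodAt c (Xf K) a (K - 2) k (zc j a1 w) (eB E))} ≤
    ENNReal.ofReal (C * D * 16 ^ (K - a1) * Real.exp (-(M * m)))

end Pool.Agent.H95.ND
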