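import Pool.Agent.H92.ND.TargetsB

/-!
# MP_70ba79_ag, board `ndc_modules`: row LIA (linear algebra)
-/

set_option autoImplicit false

namespace Pool.Agent.H95.ND

open MvPolynomial SC Pool.Agent.H27.LV Pool.Agent.H84.SM Pool.Agent.H84.ND Pool.Agent.H92.ND

theorem pf_LIA : Pool.Agent.H92.ND.T_LIA := by
  intro k V ι _ _ _ _ W W0 V1 _ _ F g hW0 hF hg hinj
  classical
  have : ∀ a, Module.Finite k (F a) := hF
  let Φ : (W0 × (∀ a, F a)) →ₗ[k] V :=
    W0.subtype.comp (LinearMap.fst k W0 (∀ a, F a)) +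
      ∑ a, ((g a).comp (F a).subtype).comp
        ((LinearMap.proj a).comp (LinearMap.snd k W0 (∀ a, F a)))
  have hΦ : ∀ (w : W0) (f : ∀ a, F a), Φ (w, f) = (w : V) + ∑ a, g a (f a) := by
    intro w f
    simp [Φ, LinearMap.sum_apply]
  have hi : Function.Injective Φ := by
    rw [← LinearMap.ker_eq_bot, LinearMap.ker_eq_bot']
    rintro ⟨w, f⟩ h
    rw [hΦ] at h
    have h1 := hinj w (fun a => f a) w.2 (fun a => (f a).2) h
    have h2 : f = 0 := by
      funext a
      exact Subtype.ext (h1 a)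
    subst h2
    have h3 : (w : V) = 0 := by simpa using h
    exact Prod.ext (Subtype.ext h3) rfl
  refine ⟨LinearMap.range Φ, inferInstance, ?_, ?_⟩
  · rintro _ ⟨⟨w, f⟩, rfl⟩
    rw [hΦ]
    refine Submodule.add_mem_sup w.2 (Submodule.sum_mem _ fun a _ => ?_)
    exact Submodule.mem_iSup_of_mem a (hg a _ (f a).2)
  · rw [LinearMap.finrank_range_of_inj hi, Module.finrank_prod, Module.finrank_pi_fintype]

end Pool.Agent.H95.ND

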