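import Pool.Agent.H92.ND.TargetsB

/-!
# MP_70ba79_ag, board `ndc_modules`: row PSL (the sections at the node itself)
-/

set_option autoImplicit false

namespace Pool.Agent.H95.ND

open MvPolynomial SC Pool.Agent.H27.LV Pool.Agent.H84.SM Pool.Agent.H84.ND Pool.Agent.H92.ND

section PSL

variable {k : Type} [Field k]

theorem ps_xa (G : A3 k) (l : Fin 3) (R : Fin 3 → A3 k) (i : Fin 3) :
    ps G l R (xa i) = Polynomial.C (X i) := by
  simp [ps, xa]

theorem ps_ya (G : A3 k) (l : Fin 3) (R : Fin 3 → A3 k) (i : Fin 3) :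
    ps G l R (ya i) = Polynomial.C (R i) +
      Polynomial.X * Polynomial.C (cr (Pi.single l 1) (g3 G) i) := by
  simp [ps, ya]

theorem ps_aeval (G : A3 k) (l : Fin 3) (R : Fin 3 → A3 k) (f : A3 k) :
    ps G l R (aeval xa f) = Polynomial.C f := by
  have h : (ps G l R).comp (aeval xa) =
      (Polynomial.CAlgHom : A3 k →ₐ[k] Polynomial (A3 k)) := by
    refine MvPolynomial.algHom_ext fun i => ?_
    rw [AlgHom.comp_apply, aeval_X, ps_xa]
    rfl
  exact DFunLike.congr_fun h f

theorem ps_fA (G : A3 k) (l : Fin 3) (R : Fin 3 → A3 k) :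
    ps G l R (fA G) = Polynomial.C (dp R (g3 G)) := by
  have h1 : ps G l R (fA G) = ∑ i, Polynomial.C (pderiv i G) * (Polynomial.C (R i) +
      Polynomial.X * Polynomial.C (cr (Pi.single l 1) (g3 G) i)) := by
    unfold fA dp
    rw [map_sum]
    refine Finset.sum_congr rfl fun i _ => ?_
    rw [map_mul, ps_ya]
    unfold gr
    rw [ps_aeval]
  have h2 : dp (g3 G) (cr (Pi.single l 1) (g3 G)) = 0 := by
    unfold dp cr
    simp only [Fin.sum_univ_three]
    fin_cases l <;> simp <;> ring
  have h3 : ∑ i, Polynomial.C (pderiv i G) * (Polynomial.C (R i) +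
      Polynomial.X * Polynomial.C (cr (Pi.single l 1) (g3 G) i)) =
      Polynomial.C (dp R (g3 G)) +
        Polynomial.X * Polynomial.C (dp (g3 G) (cr (Pi.single l 1) (g3 G))) := by
    unfold dp
    rw [map_sum, map_sum, Finset.mul_sum, ← Finset.sum_add_distrib]
    refine Finset.sum_congr rfl fun i _ => ?_
    rw [map_mul, map_mul]
    unfold g3
    ring
  rw [h1, h3, h2]
  simp

theorem cr_single (g : Fin 3 → A3 k) (l : Fin 3) : cr (Pi.single l 1) g l = 0 := by
  unfold cr
  fin_cases l <;> simp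

theorem dt_cr (R x g : Fin 3 → A3 k) (l : Fin 3) :
    dt R x (cr (Pi.single l 1) g) = dp x g * R l - dp R g * x l := by
  unfold dt dp cr
  simp only [Fin.sum_univ_three]
  fin_cases l <;> simp <;> ring

theorem map_dt {A B : Type} [CommRing A] [CommRing B] (f : A →+* B) (a b c : Fin 3 → A) :
    f (dt a b c) = dt (fun i => f (a i)) (fun i => f (b i)) (fun i => f (c i)) := by
  unfold dt dp cr
  simp only [Fin.sum_univ_three, map_add, map_mul, map_sub]

theorem dt_lin (R x c : Fin 3 → A3 k) :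
    dt (fun i => Polynomial.C (R i)) (fun i => Polynomial.C (x i))
      (fun i => Polynomial.C (R i) + Polynomial.X * Polynomial.C (c i)) =
      Polynomial.X * Polynomial.C (dt R x c) := by
  unfold dt dp cr
  simp only [Fin.sum_univ_three, map_add, map_mul, map_sub]
  simp only [Fin.isValue, zero_add, Fin.reduceAdd]
  ring

theorem ps_sgA (G : A3 k) (l : Fin 3) (R : Fin 3 → A3 k) :
    ps G l R (sgA R) =
      Polynomial.X * Polynomial.C (dt R X (cr (Pi.single l 1) (g3 G))) := by
  have h1 := map_dt ((ps G l R : A2 k →ₐ[k] Polynomial (A3 k)) : A2 k →+* Polynomial (A3 k))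
    (fun i => aeval xa (R i)) xa ya
  have h2 : ps G l R (sgA R) = dt (fun i => ps G l R (aeval xa (R i)))
      (fun i => ps G l R (xa i)) (fun i => ps G l R (ya i)) := h1
  rw [h2]
  simp only [ps_aeval, ps_xa, ps_ya]
  exact dt_lin R X _

theorem euler3 {G : A3 k} {d : ℕ} (hG : G.IsHomogeneous d) :
    dp (X : Fin 3 → A3 k) (g3 G) = (d : A3 k) * G := by
  have h := hG.sum_X_mul_pderiv
  unfold dp g3
  rw [h, nsmul_eq_mul]

theorem ps_nv (G : A3 k) (d : ℕ) (l : Fin 3) (R : Fin 3 → A3 k) (D : A3 k)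
    (hD : dp R (g3 G) = D * G) :
    ps G l R (nv G d (ya l)) = Polynomial.C (G * un d l R D) := by
  have h1 : nv G d (ya l) = (d : A2 k) * gA G * ya l - fA G * xa l := by
    simp [nv, ya]
  rw [h1, map_sub, map_mul, map_mul, map_mul, ps_fA, ps_ya, ps_xa, cr_single, hD]
  unfold gA un
  rw [ps_aeval, map_natCast]
  simp only [map_mul, map_sub, map_zero, mul_zero, add_zero, map_natCast]
  ring

end PSL

theorem pf_PSL : Pool.Agent.H92.ND.T_PSL := by
  intro k _ G d hG s ρ R D hR l h φ i j hj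
  obtain ⟨m, rfl⟩ := Nat.exists_eq_add_of_le hj
  unfold Pool.Agent.H92.ND.el
  rw [map_mul, map_mul, map_pow, map_pow, map_mul, ps_aeval, ps_aeval, ps_sgA,
    ps_nv G d l R D hR.eq, dt_cr, euler3 hG, hR.eq, Nat.add_sub_cancel_left]
  have h1 : (d : A3 k) * G * R l - D * G * X l = G * un d l R D := by
    unfold un
    ring
  rw [h1]
  simp only [map_mul, map_pow]
  ring

end Pool.Agent.H95.ND

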