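import Pool.Agent.H95.ND.Defs

/-!
# Part D of MP_57ddd5_pr, probabilistic half: targets
-/

open MeasureTheory ProbabilityTheory
open scoped ENNReal

namespace Pool.Agent.H95.ND

set_option linter.unusedVariables false

open Pool.Agent.H99.NS Pool.Agent.H22.LPP Pool.Agent.H95.INS Pool.Agent.H76.ND
open Pool.Agent.H97.NF (PEnv eA eB PN)

/-! ## P1: tails of the norms -/

/-- Simple facts on the cut-off. -/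
def T_SMF : Prop := ∀ (Xc A : ℤ) (a i : ℕ), 16 ≤ Xc → 0 ≤ A → 16 * A ≤ Xc → Sml Xc a → a ≤ i →
  Sml Xc i ∧ 4 * Xc ≤ 4 ^ i ∧ Xc + A ≤ 32 * 4 ^ i ∧
    (16 * (Xc : ℝ) + 2) * 16 ^ i ≤ ((64 : ℝ) ^ i) ^ ((17 : ℝ) / 24)

/-- The lateral cut-off `Xf K` is admissible. -/
def T_XFA : Prop := ∀ A : ℤ, ∃ K₁ : ℕ, ∀ K a : ℕ, K₁ ≤ K → K ≤ 40 * a →
  A ≤ Xf K ∧ Sml (Xf K) a ∧ 4 * Xf K ≤ 4 ^ a ∧ 1 ≤ a ∧ 3 ≤ K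

/-- Summation over windows. -/
def T_WSM : Prop := ∀ c s : ℝ, 0 < c → 0 < s → ∃ C' c' : ℝ, 0 < C' ∧ 0 < c' ∧
  ∀ (K0 : ℝ) (d n N : ℕ), 1 ≤ K0 → d ≤ n →
    ∑ m ∈ Finset.range N,
      (8 * (m : ℝ) + 1) * Real.exp (-(c * (str K0 n * (1 + m / 16 ^ d)) ^ s)) ≤
    C' * Real.exp (-(c' * str K0 n ^ s))

/-- Upper norms. -/
def T_UPP : Prop := B_BA → ∀ q : ℝ, 0 < q → q < 1 → ∃ C c : ℝ, 0 < C ∧ 0 < c ∧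
  ∀ (K0 : ℝ) (j i L : ℕ) (s₀ : ℤ), 1 ≤ K0 → 64 ^ i ≤ L → L ≤ 32 * 64 ^ i →
    PE q {ω | ¬ UL (fwd ω) q K0 j i s₀ (s₀ + L)} ≤ tl C c 1 (str K0 (ds j i))

/-- Lower norms, for a general field. -/
def T_LOW : Prop := ∀ C c s : ℝ, 0 < C → 0 < c → 0 < s → ∃ C' c' : ℝ, 0 < C' ∧ 0 < c' ∧
  ∀ (q : ℝ) (φ : Env → Env) (K0 V Bd : ℝ) (Xc : ℤ) (j i L : ℕ) (s₀ : ℤ), 1 ≤ K0 → 16 ≤ Xc →
    Sml Xc i → 64 ^ i ≤ L → L ≤ 32 * 64 ^ i → V + 2 * 16 ^ i ≤ Bd → CLow q C c s φ L Bd →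
    PE q {ω | ∃ x y : ℤ, |(x : ℝ)| ≤ V ∧ |(y : ℝ)| ≤ V ∧ |x - y| ≤ 16 * Xc * 16 ^ i ∧
      Reach (s₀, x) (s₀ + L, y) ∧ T (φ ω) (s₀, x) (s₀ + L, y) <
        par q (s₀, x) (s₀ + L, y) - al K0 j i (max |(x : ℝ)| |(y : ℝ)|)} ≤
    tl C' c' s (str K0 (ds j i))

/-- Interior lower norms, for a general field. -/
def T_INT : Prop := ∀ C c s : ℝ, 0 < C → 0 < c → 0 < s → ∃ C' c' : ℝ, 0 < C' ∧ 0 < c' ∧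
  ∀ (q : ℝ) (φ : Env → Env) (K0 V Bd : ℝ) (j i L : ℕ) (s₀ : ℤ), 1 ≤ K0 →
    64 ^ i ≤ L → L ≤ 32 * 64 ^ i → V + 2 * 16 ^ i ≤ Bd → ILow q C c s φ L Bd →
    PE q {ω | ∃ u v : Site, s₀ ≤ u.1 ∧ u.1 < v.1 ∧ v.1 ≤ s₀ + L ∧ Reach u v ∧
      |dx u v| ≤ 2 ∧ |(u.2 : ℝ)| ≤ V ∧ |(v.2 : ℝ)| ≤ V ∧
      T (φ ω) u v < mu q * dt u v - al K0 j i (min |(u.2 : ℝ)| |(v.2 : ℝ)|)} ≤
    tl C' c' s (str K0 (ds j i))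

def T_PNM : Prop := B_BA → B_BL → B_BLI → ∀ q : ℝ, 0 < q → q < 1 → I_N q

def T_PVV : Prop := B_BA → ∀ q : ℝ, 0 < q → q < 1 → I_TL q → I_TI q → I_V q

/-! ## P2: chains -/

/-- Thresholds: the tail beats the combinatorics of the assignments. -/
def T_ASR : Prop := ∀ C c s M : ℝ, 0 < C → 0 < c → 0 < s → 0 ≤ M → ∃ K00 : ℝ, 1 ≤ K00 ∧
  ∀ (K0 : ℝ) (d : ℕ), K00 ≤ K0 → tl C c s (str K0 d) ≤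
    ENNReal.ofReal (Real.exp (-((2 * d + 1) * M + d * (d + 1))))

/-- Sum over assignments of labels to scales. -/
def T_ASG : Prop := ∀ (Ω : Type) [MeasurableSpace Ω] (μ : Measure Ω) (S Lb : Finset ℕ)
  (V : ℕ → ℕ → Set Ω) (M : ℝ), 0 ≤ M →
  (∀ j ∈ S, ∀ i ∈ Lb, μ (V j i) ≤
    ENNReal.ofReal (Real.exp (-((2 * ds j i + 1) * M + ds j i * (ds j i + 1))))) →
  (∀ f : ℕ → ℕ, (∀ j ∈ S, f j ∈ Lb) → μ (⋂ j ∈ S, V j (f j)) ≤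
    ∏ i ∈ S.image f, μ (⋂ j ∈ S.filter (fun j => f j = i), V j i)) →
  μ {ω | ∀ j ∈ S, ∃ i ∈ Lb, ω ∈ V j i} ≤ ENNReal.ofReal ((3 * Real.exp (-M)) ^ S.card)

/-- Two causes of badness. -/
def T_PAT : Prop := ∀ (Ω : Type) [MeasurableSpace Ω] (μ : Measure Ω) (S : Finset ℕ)
  (A B : ℕ → Set Ω) (x : ℝ), 0 ≤ x → x ≤ 1 →
  (∀ S' ⊆ S, μ {ω | ∀ j ∈ S', ω ∈ A j} ≤ ENNReal.ofReal (x ^ S'.card)) →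
  (∀ S' ⊆ S, μ {ω | ∀ j ∈ S', ω ∈ B j} ≤ ENNReal.ofReal (x ^ S'.card)) →
  μ {ω | ∀ j ∈ S, ω ∈ A j ∨ ω ∈ B j} ≤ ENNReal.ofReal ((2 * √x) ^ S.card)

/-- Sites used by the Fubini condition of scale `k`. -/
def Ann (A : ℤ) (k : ℕ) : Set Site :=
  {x | -lv k < x.1 ∧ x.1 ≤ lv k ∧ A * 16 ^ k ≤ |x.2| ∧ |x.2| < 16 * A * 16 ^ k}

/-- Dependence of the Fubini condition. -/
def T_FCD : Prop := ∀ (c : Cst) (Xc : ℤ) (k : ℕ), 1 ≤ k →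
  DepOn (Ann c.A k) (fun ω => FC (dk c Xc k) ω) ∧ (Ann c.A k).Finite ∧
    MeasurableSet {ω | FC (dk c Xc k) ω}

/-- Independence of the Fubini conditions of different scales. -/
def T_FCI : Prop := ∀ (c : Cst) (Xc : ℤ) (S : Finset ℕ) (x : ℝ), 0 ≤ x → 1 ≤ c.A →
  (∀ k ∈ S, 1 ≤ k) → (∀ k ∈ S, PE c.q {ω | ¬ FC (dk c Xc k) ω} ≤ ENNReal.ofReal x) →
  PE c.q {ω | ∀ k ∈ S, ¬ FC (dk c Xc k) ω} ≤ ENNReal.ofReal (x ^ S.card)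

/-- Chain of violations in the box. -/
def T_CHV : Prop := ∀ q : ℝ, 0 < q → q < 1 → I_V q → ∀ x : ℝ, 0 < x → x ≤ 1 →
  ∃ K00 : ℝ, 1 ≤ K00 ∧ ∀ (K0 : ℝ) (Xc A : ℤ) (a k : ℕ) (S : Finset ℕ), K00 ≤ K0 → 200 ≤ A →
    A ≤ Xc → Sml Xc a → 1 ≤ a → (∀ j ∈ S, a ≤ j ∧ j < k) →
    PE q {ω | ∀ j ∈ S, ∃ i, a ≤ i ∧ i < k ∧ VV q K0 Xc (A * 16 ^ k) (16 ^ k) a j i ω} ≤
      ENNReal.ofReal (x ^ S.card)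

/-- Measurability and dependence of the norm events. -/
def T_NMM : Prop := ∀ (q K0 : ℝ) (Xc : ℤ) (a j i : ℕ), 1 ≤ a → a ≤ i →
  MeasurableSet {ω | Nm q K0 Xc a j i ω} ∧ DepOn (LS a i) (fun ω => Nm q K0 Xc a j i ω)

/-- Chain of violations without box. -/
def T_CHN : Prop := ∀ q : ℝ, 0 < q → q < 1 → I_N q → ∀ x : ℝ, 0 < x → x ≤ 1 →
  ∃ K00 : ℝ, 1 ≤ K00 ∧ ∀ (K0 : ℝ) (Xc : ℤ) (a I : ℕ) (S : Finset ℕ), K00 ≤ K0 → 16 ≤ Xc →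
    Sml Xc a → 1 ≤ a → (∀ j ∈ S, a ≤ j) →
    PE q {ω | ∀ j ∈ S, ¬ GN q K0 Xc a I j ω} ≤ ENNReal.ofReal (x ^ S.card)

/-- JC1: one environment, in the box. -/
def T_JC1 : Prop := ∀ q : ℝ, 0 < q → q < 1 → I_V q → ∀ δ : ℝ, 0 < δ → δ ≤ 1 →
  ∃ K00 : ℝ, 1 ≤ K00 ∧ ∀ (C₀ : ℝ) (c : Cst) (k₀ : ℕ) (p₀ : ℝ≥0∞), PK q δ C₀ c k₀ p₀ →
    K00 ≤ c.K0 → ∀ (Xc : ℤ) (a I b k : ℕ) (S : Finset ℕ), 16 * c.A ≤ Xc → Sml Xc a →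
    k₀ ≤ a → 1 ≤ a → a ≤ b → k ≤ I → (∀ j ∈ S, b ≤ j ∧ j < k) → ∀ out : Env,
    PE q {ω | good c Xc a I k (splice (Bx (dk c Xc k)) ω out) ∧
      ∀ j ∈ S, ¬ good c Xc a I j (splice (Bx (dk c Xc k)) ω out)} ≤
      ENNReal.ofReal (δ ^ S.card)

/-- JC2: one environment, without box. -/
def T_JC2 : Prop := ∀ q : ℝ, 0 < q → q < 1 → I_N q → ∀ δ : ℝ, 0 < δ → δ ≤ 1 →
  ∃ K00 : ℝ, 1 ≤ K00 ∧ ∀ (C₀ : ℝ) (c : Cst) (k₀ : ℕ) (p₀ : ℝ≥0∞), PK q δ C₀ c k₀ p₀ →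
    K00 ≤ c.K0 → ∀ (Xc : ℤ) (a I b : ℕ) (S : Finset ℕ), 16 * c.A ≤ Xc → Sml Xc a →
    k₀ ≤ a → 1 ≤ a → a ≤ b → (∀ j ∈ S, b ≤ j) →
    PE q {ω | ∀ j ∈ S, ¬ good c Xc a I j ω} ≤ ENNReal.ofReal (δ ^ S.card)

/-- Several environments, abstract. -/
def T_JM : Prop := ∀ (Ω : Type) [MeasurableSpace Ω] (μ : Measure Ω) (m : ℕ) (G : Set Ω)
  (Bd : Fin m → ℕ → Set Ω) (S : Finset ℕ) (M : ℝ), 1 ≤ m → 0 ≤ M →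
  (∀ l, ∀ S' ⊆ S, μ {ω | ω ∈ G ∧ ∀ j ∈ S', ω ∈ Bd l j} ≤
    ENNReal.ofReal (((Real.exp (-M) / 2) ^ m) ^ S'.card)) →
  μ {ω | ω ∈ G ∧ ∀ j ∈ S, ∃ l, ω ∈ Bd l j} ≤ ENNReal.ofReal (m * Real.exp (-(M * S.card)))

/-- JC: several environments. -/
def T_JC : Prop := ∀ q : ℝ, 0 < q → q < 1 → I_V q → I_N q → ∀ (m : ℕ) (M : ℝ), 1 ≤ m → 0 ≤ M →
  ∃ δ K00 : ℝ, 0 < δ ∧ δ ≤ 1 ∧ 1 ≤ K00 ∧ ∀ (C₀ : ℝ) (c : Cst) (k₀ : ℕ) (p₀ : ℝ≥0∞),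
    PK q δ C₀ c k₀ p₀ → K00 ≤ c.K0 → JCs c m M k₀

/-! ## P3: constants and goodness -/

/-- Constants exist. -/
def T_PK : Prop := ∀ q cs : ℝ, 0 < q → q < 1 → 0 < cs → I_A q → I_C q → I_B q → I_S q cs →
  I_L q cs → ∀ δ C₀ K0 : ℝ, 0 < δ → δ ≤ 1 → 0 ≤ C₀ → 1 ≤ K0 →
  ∃ (c : Cst) (k₀ : ℕ) (p₀ : ℝ≥0∞), c.K0 = K0 ∧ PK q δ C₀ c k₀ p₀

/-- Measurability of goodness. -/
def T_MEA : Prop := ∀ (c : Cst) (Xc : ℤ) (a I k : ℕ) (z : Site), 1 ≤ a → 1 ≤ k →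
  MeasurableSet {ω | goodAt c Xc a I k z ω}

/-- Fubini for pairs with the same outside. -/
def T_FUB : Prop := ∀ (q : ℝ) (ρ : Site → ℝ) (Q : Set Site), (∀ x, x ∉ Q → ρ x = 0) →
  MeasurePreserving (fun p : PEnv × Env => gl2 Q p.1 p.2) ((PN q ρ).prod (PE q)) (PN q ρ)

/-- Conditional bound on an event of the outside. -/
def T_FIB : Prop := ∀ (q : ℝ) (ρ : Site → ℝ) (Q : Set Site) (G : Set Env) (Ev : Set PEnv)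
  (β : ℝ≥0∞), (∀ x, x ∉ Q → ρ x = 0) → MeasurableSet G → MeasurableSet Ev →
  DepOn Qᶜ (fun ω => ω ∈ G) → (∀ out ∈ G, PN q ρ {E | gl2 Q E out ∈ Ev} ≤ β) →
  PN q ρ {E | eA E ∈ G ∧ E ∈ Ev} ≤ β * PE q G

/-- The geodesic passes through the box with positive conditional probability. -/
def T_GPR : Prop := B_LAMM → ∀ (c : Cst) (k : ℕ) (o e z : Site) (p : ℝ≥0∞), Reach o e →
  MeasurableSet (Gp c k o e z p) ∧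
  DepOn (BxAt (dk c 0 k) z)ᶜ (fun ω => ω ∈ Gp c k o e z p) ∧
  p * PE c.q (Gp c k o e z p) ≤ PE c.q {ω | |Lam ω o e z.1 - z.2| < c.A * 16 ^ k}

/-- Counting windows. -/
def T_CNT : Prop := B_LAMM → ∀ (q : ℝ) (A j : ℤ) (a1 k : ℕ) (o e : Site) (W : Finset ℤ), 1 ≤ A →
  a1 ≤ k → ∑ w ∈ W, PE q {ω | |Lam ω o e (zc j a1 w).1 - (zc j a1 w).2| < A * 16 ^ k} ≤
    ENNReal.ofReal (3 * A * 16 ^ (k - a1))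

/-- Summation of a conditional bound over the windows. -/
def T_GSM : Prop := B_LAMM → ∀ (c : Cst) (a1 k : ℕ) (o e : Site) (j : ℤ) (p₀ β : ℝ≥0∞)
  (ρ : ℤ → Site → ℝ) (Ev : ℤ → Set PEnv) (W : Finset ℤ), 0 < p₀ → p₀ ≠ ∞ → 1 ≤ c.A →
  a1 ≤ k → Reach o e → (∀ w x, x ∉ BxAt (dk c 0 k) (zc j a1 w) → ρ w x = 0) →
  (∀ w, MeasurableSet (Ev w)) →
  (∀ w out, PN c.q (ρ w) {E | gl2 (BxAt (dk c 0 k) (zc j a1 w)) E out ∈ Ev w} ≤ β) →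
  ∑ w ∈ W, PN c.q (ρ w) {E | eA E ∈ Gp c k o e (zc j a1 w) p₀ ∧ E ∈ Ev w} ≤
    β * (ENNReal.ofReal (3 * c.A * 16 ^ (k - a1)) / p₀)

/-- Goodness at a scale and regularity of the geodesic imply goodness of the outside. -/
def T_GDK : Prop := B_LAM → ∀ (q δ C₀ : ℝ) (c : Cst) (k₀ : ℕ) (p₀ : ℝ≥0∞), 0 < q → q < 1 →
  GDs q C₀ → PK q δ C₀ c k₀ p₀ → ∃ K₁ : ℕ, ∀ (K a a1 k : ℕ) (w j : ℤ) (ω : Env) (D : ℝ),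
  K₁ ≤ K → K ≤ 40 * a → a ≤ a1 → a1 ≤ k → k + 2 ≤ K → |j| ≤ 24 * 64 ^ (K - 1) →
  Lam ω (oK K) (eK K) j ∈ win a1 w →
  goodAt c (Xf K) a (K - 2) k (zc j a1 w) ω →
  RF (dk c (Xf K) k) (shiftE (zc j a1 w) ω) (oK K - zc j a1 w) (eK K - zc j a1 w) →
  RGG (Xf K) a (-lv K) (lv K) (Lam ω (oK K) (eK K)) →
  (∀ t, -lv K ≤ t → t ≤ lv K → |(Lam ω (oK K) (eK K) t : ℝ)| ≤ D * 16 ^ K) →
  (3 / 8) ^ (K - 2 - k) * (32 * D) ≤ 1 → ω ∈ Gp c k (oK K) (eK K) (zc j a1 w) p₀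

/-- The global Fubini condition. -/
def T_RFP : Prop := ∀ (q δ C₀ : ℝ) (c : Cst) (k₀ : ℕ) (p₀ : ℝ≥0∞), 0 < q → q < 1 →
  PK q δ C₀ c k₀ p₀ → I_RG q → ∃ C c' : ℝ, 0 < C ∧ 0 < c' ∧ ∃ K₁ : ℕ,
  ∀ (K a1 k : ℕ) (w j : ℤ), K₁ ≤ K → K ≤ 40 * a1 → a1 ≤ k → k + 2 ≤ K →
  |j| ≤ 24 * 64 ^ (K - 1) →
  PE q {ω | ¬ RF (dk c (Xf K) k) (shiftE (zc j a1 w) ω) (oK K - zc j a1 w)
    (eK K - zc j a1 w)} ≤ ENNReal.ofReal (C * Real.exp (-Real.exp (c' * K)))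

/-- Chain for pairs in the box at the center `z`. -/
def T_CHB : Prop := ∀ (q δ C₀ M : ℝ) (c : Cst) (k₀ : ℕ) (p₀ : ℝ≥0∞), 0 < q → q < 1 →
  PK q δ C₀ c k₀ p₀ → JCs c 2 M k₀ → ∃ K₁ : ℕ, ∀ (K a b k : ℕ) (z : Site) (ρ : Site → ℝ),
  K₁ ≤ K → K ≤ 40 * a → a ≤ b → b ≤ k → k + 2 ≤ K →
  (∀ out : Env, PN q ρ {E | gl2 (BxAt (dk c 0 k) z) E out ∈ {E : PEnv |
      (goodAt c (Xf K) a (K - 2) k z (eA E) ∧ goodAt c (Xf K) a (K - 2) k z (eB E)) ∧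
      ∀ j, b ≤ j → j < k → ¬ (goodAt c (Xf K) a (K - 2) j z (eA E) ∧
        goodAt c (Xf K) a (K - 2) j z (eB E))}} ≤
    ENNReal.ofReal (2 * Real.exp (-(M * (k - b))))) ∧
  PN q ρ {E | ∀ j, b ≤ j → j < k → ¬ (goodAt c (Xf K) a (K - 2) j z (eA E) ∧
        goodAt c (Xf K) a (K - 2) j z (eB E))} ≤ ENNReal.ofReal (2 * Real.exp (-(M * (k - b))))

/-- The height of a path is about `(8/3)^h / 32`. -/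
def HT (K : ℕ) (g : ℤ → ℤ) (h : ℕ) : Prop :=
  (∀ t, -lv K ≤ t → t ≤ lv K → 32 * |(g t : ℝ)| ≤ (8 / 3) ^ h * 16 ^ K) ∧
  (h = 0 ∨ ∃ t, -lv K ≤ t ∧ t ≤ lv K ∧ (8 / 3) ^ (h - 1) * 16 ^ K < 32 * |(g t : ℝ)|)

/-- No good scale below the allowed maximum. -/
def T_NGS : Prop := B_LAM → B_LAMM → ∀ (q δ C₀ M : ℝ) (c : Cst) (k₀ : ℕ) (p₀ : ℝ≥0∞), 0 < q →
  q < 1 → 0 ≤ M → PK q δ C₀ c k₀ p₀ → JCs c 2 (2 * M + 8) k₀ → I_TOP q → ∃ C : ℝ, 0 < C ∧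
  ∃ K₁ : ℕ, ∀ K a a1 m : ℕ, K₁ ≤ K → K ≤ 40 * a → a ≤ a1 → a1 + 2 * m + 2 ≤ K →
  ∀ j : ℤ, |j| ≤ 24 * 64 ^ (K - 1) → ∀ (ρ : ℤ → Site → ℝ) (W : Finset ℤ),
  ∑ w ∈ W, PN q (ρ w) {E | Lam (eA E) (oK K) (eK K) j ∈ win a1 w ∧
    ∃ h : ℕ, a1 + m + h + 2 ≤ K ∧ HT K (Lam (eA E) (oK K) (eK K)) h ∧
      ∀ k, a1 ≤ k → k + h + 2 ≤ K → ¬ (goodAt c (Xf K) a (K - 2) k (zc j a1 w) (eA E) ∧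
        goodAt c (Xf K) a (K - 2) k (zc j a1 w) (eB E))} ≤
    ENNReal.ofReal (C * Real.exp (-(M * m)))

/-- Exceptional height. -/
def T_TPB : Prop := B_LAM → B_LAMM → ∀ (q M : ℝ), 0 < q → q < 1 → 0 ≤ M → I_TOP q →
  ∃ C : ℝ, 0 < C ∧
  ∃ K₁ : ℕ, ∀ K a1 m : ℕ, K₁ ≤ K → a1 + 2 * m + 2 ≤ K →
  ∀ (j : ℤ) (ρ : ℤ → Site → ℝ) (W : Finset ℤ),
  ∑ w ∈ W, PN q (ρ w) {E | Lam (eA E) (oK K) (eK K) j ∈ win a1 w ∧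
    ∃ h : ℕ, K < a1 + m + h + 2 ∧ HT K (Lam (eA E) (oK K) (eK K)) h} ≤
    ENNReal.ofReal (C * Real.exp (-(M * m)))

/-- Sum of the failures of the global Fubini condition and of the crude regularity. -/
def T_RFS : Prop := B_LAM → B_LAMM → ∀ (q δ C₀ : ℝ) (c : Cst) (k₀ : ℕ) (p₀ : ℝ≥0∞), 0 < q →
  q < 1 → PK q δ C₀ c k₀ p₀ → I_RG q → ∃ C c' : ℝ, 0 < C ∧ 0 < c' ∧ ∃ K₁ : ℕ,
  ∀ (K a a1 : ℕ) (j : ℤ), K₁ ≤ K → K ≤ 40 * a → a ≤ a1 → a1 + 2 ≤ K →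
  |j| ≤ 24 * 64 ^ (K - 1) → ∀ (ρ : ℤ → Site → ℝ) (W : Finset ℤ),
  ∑ w ∈ W, PN q (ρ w) {E | Lam (eA E) (oK K) (eK K) j ∈ win a1 w ∧
    (¬ RGG (Xf K) a (-lv K) (lv K) (Lam (eA E) (oK K) (eK K)) ∨
      ∃ k, a1 ≤ k ∧ k + 2 ≤ K ∧ ¬ RF (dk c (Xf K) k) (shiftE (zc j a1 w) (eA E))
        (oK K - zc j a1 w) (eK K - zc j a1 w))} ≤
    ENNReal.ofReal (C * Real.exp (-Real.exp (c' * K)))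

/-! ## P4: summation over windows -/

def T_PALM : Prop := B_LAM → B_LAMM → ∀ (q δ C₀ M : ℝ) (c : Cst) (k₀ : ℕ) (p₀ : ℝ≥0∞), 0 < q →
  q < 1 → 0 ≤ M → GDs q C₀ → PK q δ C₀ c k₀ p₀ → JCs c 2 (2 * M + 8) k₀ → I_RG q → I_TOP q →
  PALMs c M

def T_NOG : Prop := ∀ (q δ C₀ M : ℝ) (c : Cst) (k₀ : ℕ) (p₀ : ℝ≥0∞), 0 < q →
  q < 1 → 0 ≤ M → PK q δ C₀ c k₀ p₀ → JCs c 2 M k₀ → NOGs c M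

end Pool.Agent.H95.ND
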