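import Pool.Agent.H76.ND.Targets2
import Pool.Agent.H95.ND.Targets

/-!
# Module CST of Part D: choice of the constants
-/

open MeasureTheory ProbabilityTheory
open scoped ENNReal

namespace Pool.Agent.H95.ND2

open Pool.Agent.H99.NS Pool.Agent.H22.LPP Pool.Agent.H95.INS Pool.Agent.H76.ND Pool.Agent.H95.ND
open Pool.Agent.H97.NF (PEnv eA eB PN)

theorem pf_CST (h_JC : Pool.Agent.H95.ND.T_JC) : T_CST := by
  intro q M Cg hq0 hq1 hM hCg hN hV hO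
  have hsg := sg_pos hq0 hq1
  obtain ⟨δ, K00, hδ0, hδ1, hK00, hJ⟩ := h_JC q hq0 hq1 hV hN 4 M (by norm_num) hM
  have hK0 : (1 : ℝ) ≤ K00 := hK00
  have hKp : (0 : ℝ) ≤ Cg * K00 ^ 2 := by positivity
  obtain ⟨A, H, Y, κ, c₁, p0, k₀, hA, hp0, hk₀, hκ0, hκ1, hc₁, hmain⟩ := hO
    (Cg * K00 ^ 2) (max (Cg * K00) (max 200 (256 * K00 / sg q))) (δ ^ 2 / 4) hKp
    (le_max_of_le_right (le_max_of_le_left (by norm_num))) (by positivity)
  set c : Cst := ⟨q, K00, Cg * K00 ^ 2, max (Cg * K00) (max 200 (256 * K00 / sg q)), H, Y, A⟩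
    with hc
  have hall : ∀ (Xc : ℤ) (k : ℕ), k₀ ≤ k → 16 * A ≤ Xc → Xc + A ≤ 32 * 4 ^ k →
      16 * A * 16 ^ k ≤ Xc * 16 ^ k ∧ Xc * 16 ^ k + A * 16 ^ k ≤ 32 * 64 ^ k := by
    intro Xc k _ hx1 hx2
    have hp : (0 : ℤ) < 16 ^ k := by positivity
    refine ⟨mul_le_mul_of_nonneg_right hx1 hp.le, ?_⟩
    have e1 : (64 : ℤ) ^ k = 4 ^ k * 16 ^ k := by rw [← mul_pow]; norm_num
    rw [e1, ← add_mul, ← mul_assoc]
    exact mul_le_mul_of_nonneg_right hx2 hp.le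
  obtain ⟨n, hn⟩ : ∃ n : ℕ, A = n := ⟨A.toNat, (Int.toNat_of_nonneg (by omega)).symm⟩
  have hbig : 16 * A + A ≤ 32 * 4 ^ (max k₀ n) := by
    have e1 : (n : ℤ) < 4 ^ n := by
      have := Nat.lt_pow_self (show 1 < 4 by norm_num) (n := n)
      exact_mod_cast this
    have e2 : (4 : ℤ) ^ n ≤ 4 ^ (max k₀ n) := pow_le_pow_right₀ (by norm_num) (le_max_right _ _)
    rw [← hn] at e1
    linarith
  obtain ⟨f1, f2⟩ := hall (16 * A) (max k₀ n) (le_max_left _ _) le_rfl hbig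
  obtain ⟨g1, g2, -⟩ := hmain (max k₀ n) (16 * A * 16 ^ (max k₀ n)) (le_max_left _ _) f1 f2
  have hBA : max (Cg * K00) (max 200 (256 * K00 / sg q)) ≤ (A : ℝ) := g1.BA
  have hB2 : (200 : ℝ) ≤ A := (le_max_left _ _).trans ((le_max_right _ _).trans hBA)
  have hB3 : 256 * K00 / sg q ≤ (A : ℝ) := (le_max_right _ _).trans ((le_max_right _ _).trans hBA)
  have hc2 : Cg * K00 ^ 2 * (1 + 16 * (A : ℝ)) ≤ H / 1000 := g1.c2
  have hK1 : (1 : ℝ) ≤ Cg * K00 ^ 2 := by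
    have : (1 : ℝ) ≤ K00 ^ 2 := one_le_pow₀ hK0
    nlinarith
  have hH : 1 ≤ H := by nlinarith
  have hp01 : p0 ≤ 1 := by
    refine g2.trans ?_
    unfold pH
    exact prob_le_one
  have hPK : PK q δ Cg c k₀ p0 := by
    refine ⟨rfl, hK0, le_rfl, le_max_left _ _, hH, ?_, ?_, hp0, hp01, ?_, ?_, ?_, ?_⟩
    · exact_mod_cast hB2
    · change 256 * K00 ≤ sg q * (A : ℝ)
      rw [div_le_iff₀ hsg] at hB3
      linarith
    · intro Xc k hk hx1 hx2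
      obtain ⟨e1, e2⟩ := hall Xc k hk hx1 hx2
      exact (hmain k (Xc * 16 ^ k) hk e1 e2).1
    · intro Xc k hk hx1 hx2
      obtain ⟨e1, e2⟩ := hall Xc k hk hx1 hx2
      exact (hmain k (Xc * 16 ^ k) hk e1 e2).2.2.1
    · intro Xc k hk hx1 hx2
      obtain ⟨e1, e2⟩ := hall Xc k hk hx1 hx2
      exact (hmain k (Xc * 16 ^ k) hk e1 e2).2.1
    · intro Xc k hk hx1 hx2 out o e hE hG
      obtain ⟨e1, e2⟩ := hall Xc k hk hx1 hx2
      have := (hmain k (Xc * 16 ^ k) hk e1 e2).2.2.2.1 out o e hE hG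
      refine this.trans (le_of_eq ?_)
      congr 1
  refine ⟨c, κ, c₁, p0, k₀, ⟨δ, hPK⟩, hk₀, hκ0, hκ1, hc₁, hJ Cg c k₀ p0 hPK le_rfl, ?_⟩
  intro Xc k hk hx1 hx2
  obtain ⟨e1, e2⟩ := hall Xc k hk hx1 hx2
  exact (hmain k (Xc * 16 ^ k) hk e1 e2).2.2.2.2

end Pool.Agent.H95.ND2
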