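import Pool.Agent.H76.ND.Targets2
import Pool.Agent.H95.ND.Targets

/-!
# Module IRN of Part D: crude regularity in the form `I_RG`
-/

open MeasureTheory ProbabilityTheory
open scoped ENNReal

namespace Pool.Agent.H95.ND2

open Pool.Agent.H99.NS Pool.Agent.H22.LPP Pool.Agent.H95.INS Pool.Agent.H76.ND Pool.Agent.H95.ND
open Pool.Agent.H97.NF (PEnv eA eB PN)

theorem lv2 {K : ℕ} (hK : 1 ≤ K) : 2 * lv K = 64 ^ K := by
  obtain ⟨k, rfl⟩ : ∃ k, K = k + 1 := ⟨K - 1, by omega⟩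
  unfold lv
  simp only [Nat.add_sub_cancel]
  ring

theorem ep_K {K : ℕ} (hK : 1 ≤ K) : EP (oK K) (eK K) (64 ^ K) := by
  have h2 := lv2 hK
  have h0 : (0 : ℤ) ≤ lv K := by unfold lv; positivity
  refine ⟨?_, ?_, ?_, ?_⟩
  · simp only [oK, eK]
    push_cast
    linarith
  · simp only [oK, eK, dx, sub_self, Int.cast_zero, abs_zero]
    positivity
  · refine ⟨?_, ?_⟩
    · simp only [oK, eK, sub_self, abs_zero]
      omega
    · exact ⟨lv K, by simp only [oK, eK]; ring⟩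
  · simp only [oK, add_zero]
    unfold lv
    exact ⟨-(16 * 64 ^ (K - 1)), by ring⟩

/-- Comparison of the cut-offs. -/
theorem xn_le {K : ℕ} (hK : 2000 ≤ K) : 2 * Xn (1 / 40) (64 ^ K) ≤ Xf K := by
  have h1 : (Xn (1 / 40) (64 ^ K) : ℝ) ≤ ((64 ^ K : ℕ) : ℝ) ^ ((1 / 40 : ℝ) / 50) :=
    Int.floor_le _
  have h2 : (((64 : ℕ) ^ K : ℕ) : ℝ) ^ ((1 / 40 : ℝ) / 50) = (4 : ℝ) ^ ((3 * K : ℝ) / 2000) := by
    push_cast
    rw [show (64 : ℝ) = (4 : ℝ) ^ (3 : ℝ) by norm_num, ← Real.rpow_natCast,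
      ← Real.rpow_mul (by norm_num), ← Real.rpow_mul (by norm_num)]
    congr 1
    ring
  have h3 : (2 : ℝ) * (4 : ℝ) ^ ((3 * K : ℝ) / 2000) ≤ (4 : ℝ) ^ (((K / 400 : ℕ) : ℝ)) := by
    have h4 : (2 : ℝ) ≤ (4 : ℝ) ^ (1 : ℝ) := by norm_num
    calc (2 : ℝ) * (4 : ℝ) ^ ((3 * K : ℝ) / 2000) ≤ (4 : ℝ) ^ (1 : ℝ) * (4 : ℝ) ^ ((3 * K : ℝ) / 2000) := by
          gcongr
      _ = (4 : ℝ) ^ (1 + (3 * K : ℝ) / 2000) := (Real.rpow_add (by norm_num) _ _).symm
      _ ≤ (4 : ℝ) ^ (((K / 400 : ℕ) : ℝ)) := by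
          apply Real.rpow_le_rpow_of_exponent_le (by norm_num)
          have h5 : K < 400 * (K / 400) + 400 := by omega
          have h5' : (K : ℝ) < 400 * ((K / 400 : ℕ) : ℝ) + 400 := by exact_mod_cast h5
          have h6 : (2000 : ℝ) ≤ K := by exact_mod_cast hK
          linarith
  have h7 : ((2 * Xn (1 / 40) (64 ^ K) : ℤ) : ℝ) ≤ ((Xf K : ℤ) : ℝ) := by
    unfold Xf
    push_cast
    rw [← Real.rpow_natCast]
    refine le_trans ?_ h3
    rw [← h2]
    linarith
  exact_mod_cast h7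

theorem pf_IRN (h1 : T_RGA) (h2 : T_PCR) : T_IRN := by
  intro q hq0 hq1 h hh
  obtain ⟨N0, hN⟩ := h1 q (1 / 40) h hq0 hq1 (by norm_num) (by norm_num) hh.le
  obtain ⟨C, c, hC, hc, hP⟩ := h2 q (1 / 40) hq0 hq1 (by norm_num) (by norm_num)
  refine ⟨C, c * Real.log 64, hC, mul_pos hc (Real.log_pos (by norm_num)), max N0 2000, ?_⟩
  intro K hK
  have hK1 : 2000 ≤ K := (le_max_right _ _).trans hK
  have hK2 : N0 ≤ 64 ^ K :=
    ((le_max_left _ _).trans hK).trans (Nat.lt_pow_self (by norm_num)).le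
  have hEP := ep_K (show 1 ≤ K by omega)
  have hlv := lv2 (show 1 ≤ K by omega)
  have key := hP (oK K) (64 ^ K) (Nat.one_le_pow _ _ (by norm_num))
  refine le_trans (measure_mono ?_) (key.trans (le_of_eq ?_))
  · rintro ω ⟨a, ha1, ha2, g, hg, hn⟩ hcrd
    apply hn
    have hR := hN (64 ^ K) (oK K) (eK K) ω a hK2 hEP hcrd ?_ ?_ g hg
    · intro i hi s t hs hst ht hts
      have hx := xn_le hK1
      set m : ℤ := (s + t) / 2 with hm
      have hm1 : s ≤ m := by omega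
      have hm2 : m ≤ t := by omega
      have h64 : (1 : ℤ) ≤ 64 ^ i := one_le_pow₀ (by norm_num)
      have hts' : t - s ≤ 64 * 64 ^ i := by
        have : (64 : ℤ) ^ (i + 1) = 64 * 64 ^ i := by ring
        linarith
      have e1 := hR s m i hi (by simp only [oK]; exact hs) (by simp only [eK]; omega)
        (by simp only [oK]; omega) (by simp only [eK]; omega)
        (by rw [abs_of_nonneg (by omega)]; omega)
      have e2 := hR m t i hi (by simp only [oK]; omega) (by simp only [eK]; omega)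
        (by simp only [oK]; omega) (by simp only [eK]; omega)
        (by rw [abs_of_nonneg (by omega)]; omega)
      have e3 : |g t - g s| ≤ |g t - g m| + |g m - g s| := abs_sub_le _ _ _
      have h16 : (0 : ℤ) ≤ 16 ^ i := by positivity
      nlinarith
    · push_cast
      rw [← Real.rpow_natCast, ← Real.rpow_mul (by norm_num), ← Real.rpow_natCast]
      apply Real.rpow_le_rpow_of_exponent_le (by norm_num)
      have : (K : ℝ) ≤ 40 * a := by exact_mod_cast ha1
      linarith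
    · exact Nat.pow_le_pow_right (by norm_num) ha2
  · congr 3
    congr 1
    push_cast
    rw [← Real.rpow_natCast, ← Real.rpow_mul (by norm_num), Real.rpow_def_of_pos (by norm_num)]
    congr 1
    ring

end Pool.Agent.H95.ND2
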