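import Pool.Agent.H95.ND.Targets

/-!
# PALM for one environment
-/

open MeasureTheory ProbabilityTheory
open scoped ENNReal

namespace Pool.Agent.H95.ND

open Pool.Agent.H99.NS Pool.Agent.H22.LPP Pool.Agent.H95.INS Pool.Agent.H76.ND
open Pool.Agent.H97.NF (PEnv eA eB PN)

/-- PALM, one environment. -/
def PALM1s (c : Cst) (M : ℝ) : Prop := ∃ C c' : ℝ, 0 < C ∧ 0 < c' ∧ ∃ K₁ : ℕ,
  ∀ K a a1 m : ℕ, K₁ ≤ K → K ≤ 40 * a → a ≤ a1 → a1 + 2 * m + 2 ≤ K →
  ∀ j : ℤ, |j| ≤ 24 * 64 ^ (K - 1) → ∀ (Bad : ℤ → Env → Prop) (β : ℝ), 0 ≤ β →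
    (∀ w, DepOn (dom (oK K) (eK K)) (Bad w)) →
    (∀ w ω, Bad w ω → Lam ω (oK K) (eK K) j ∈ win a1 w) →
    (∀ (w : ℤ) (k : ℕ), a1 ≤ k → k ≤ a1 + m → ∀ out : Env,
      PE c.q {ω | Bad w (splice (BxAt (dk c (Xf K) k) (zc j a1 w)) ω out) ∧
        goodAt c (Xf K) a (K - 2) k (zc j a1 w)
          (splice (BxAt (dk c (Xf K) k) (zc j a1 w)) ω out)} ≤ ENNReal.ofReal β) →
    PE c.q {ω | ∃ w, Bad w ω} ≤
      ENNReal.ofReal (C * (16 ^ m * β + Real.exp (-(M * m)) + Real.exp (-Real.exp (c' * K))))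

theorem eA_gl2 (Q : Set Site) (E : PEnv) (out : Env) : eA (gl2 Q E out) = splice Q (eA E) out := by
  classical
  funext x
  unfold eA gl2 splice
  split_ifs <;> rfl

theorem lam_bound (hLAM : B_LAM) (K : ℕ) (ω : Env) (j : ℤ) (h1 : -lv K ≤ j) (h2 : j ≤ lv K) :
    |Lam ω (oK K) (eK K) j| ≤ 2 * lv K := by
  have hr : Reach (oK K) (eK K) := by
    have h : 0 ≤ lv K := by unfold lv; positivity
    refine ⟨?_, ?_⟩
    · simp only [oK, eK, sub_self, abs_zero]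
      omega
    · exact ⟨lv K, by simp only [oK, eK]; ring⟩
  obtain ⟨⟨⟨g1, g2, g3⟩, -⟩, -⟩ := hLAM ω (oK K) (eK K) hr
  have := path_lip g1 (a := (oK K).1) (b := j) le_rfl h1 h2
  rw [g2] at this
  have e : (oK K).1 = -lv K := rfl
  have e2 : (oK K).2 = 0 := rfl
  rw [e, e2, sub_zero] at this
  omega

theorem palm1 (hLAM : B_LAM) (hFIM : T_FIM) (c : Cst) (M : ℝ) (h : PALMs c M) :
    PALM1s c M := by
  classical
  obtain ⟨C, c', hC, hc', K₁, hK₁⟩ := h
  refine ⟨C, c', hC, hc', max K₁ 1, ?_⟩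
  intro K a a1 m hK hKa ha1 hm j hj Bad β hβ hdep hwin hb
  have hK1 : K₁ ≤ K := by omega
  have hKge : 1 ≤ K := by omega
  let B' : ℤ → Set PEnv := fun w => {E | Bad w (eA E)}
  have hmeasB : ∀ w, MeasurableSet {ω | Bad w ω} := fun w =>
    hFIM _ _ (dom_finite _ _) (hdep w)
  have hmeas : ∀ w, MeasurableSet (B' w) := fun w =>
    Pool.Agent.H97.NF.measurable_eA (hmeasB w)
  have hle : ∀ S : Set Env, PN c.q (fun _ => 0) {E | eA E ∈ S} ≤ PE c.q S := by
    intro S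
    have h1 := Measure.le_map_apply (μ := PN c.q (fun _ => 0))
      Pool.Agent.H97.NF.measurable_eA.aemeasurable S
    rwa [(Pool.Agent.H97.NF.mp_eA c.q (fun _ => 0)).map_eq] at h1
  have hlv : lv K = 32 * 64 ^ (K - 1) := rfl
  have hj' := abs_le.1 hj
  have h64 : (0 : ℤ) < 64 ^ (K - 1) := by positivity
  set W : Finset ℤ := Finset.Icc (-(2 * lv K + 1)) (2 * lv K + 1) with hW
  have hmain := hK₁ K a a1 m hK1 hKa ha1 hm j hj (fun _ _ => 0) B' β hβ hmeas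
    (fun _ _ _ => rfl) (fun w k hk1 hk2 out => by
      refine (measure_mono ?_).trans ((hle {ω |
        Bad w (splice (BxAt (dk c (Xf K) k) (zc j a1 w)) ω out) ∧
        goodAt c (Xf K) a (K - 2) k (zc j a1 w)
          (splice (BxAt (dk c (Xf K) k) (zc j a1 w)) ω out)}).trans (hb w k hk1 hk2 out))
      rintro E ⟨h1, h2, -⟩
      change Bad w (eA (gl2 _ E out)) at h1
      rw [eA_gl2] at h1 h2
      exact ⟨h1, h2⟩) W
  refine le_trans ?_ hmain
  have hsub : {ω | ∃ w, Bad w ω} ⊆ ⋃ w ∈ W, {ω | Bad w ω} := by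
    rintro ω ⟨w, hw⟩
    simp only [Set.mem_iUnion]
    refine ⟨w, ?_, hw⟩
    have h1 := hwin w ω hw
    have h2 := lam_bound hLAM K ω j (by omega) (by omega)
    obtain ⟨h3, h4⟩ := h1
    have h5 := abs_le.1 h2
    have h16 : (1 : ℤ) ≤ 16 ^ a1 := one_le_pow₀ (by norm_num)
    rw [hW, Finset.mem_Icc]
    constructor
    · by_contra hc
      push Not at hc
      have : (w + 1) * 16 ^ a1 ≤ (w + 1) * 1 :=
        mul_le_mul_of_nonpos_left h16 (by omega)
      omega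
    · by_contra hc
      push Not at hc
      have : w * 1 ≤ w * 16 ^ a1 := mul_le_mul_of_nonneg_left h16 (by omega)
      omega
  refine (measure_mono hsub).trans ((measure_biUnion_finset_le _ _).trans ?_)
  refine Finset.sum_le_sum fun w _ => ?_
  have e1 := (Pool.Agent.H97.NF.mp_eA c.q (fun _ => 0)).measure_preimage
    (hmeasB w).nullMeasurableSet
  rw [← e1]
  exact measure_mono fun E hE => ⟨hwin w _ hE, hE⟩

end Pool.Agent.H95.ND
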